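import Pool.Agent.helper58.FI.SpecC

set_option autoImplicit false

namespace Pool.Agent.FI

open Pool.Agent.helper58.DC Pool.Agent.DI Pool.Agent.GR Pool.Agent.OB Pool.Agent.DR

theorem FCN_mul {Γ : Type} [Group Γ] (a b : Γ) (ψ : Γ → ℂ) :
    funMap (MulAut.conj a) (funMap (MulAut.conj b) ψ) = funMap (MulAut.conj (a * b)) ψ := by
  funext g
  simp [funMap, mul_assoc]

theorem FCN_one {Γ : Type} [Group Γ] (ψ : Γ → ℂ) : funMap (MulAut.conj (1 : Γ)) ψ = ψ := by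
  funext g
  simp [funMap]

theorem FCN_orb {Γ : Type} [Group Γ] (N : Subgroup Γ) (ψ : Γ → ℂ) (n : Γ) (hn : n ∈ N) :
    {θ : Γ → ℂ | ∃ m ∈ N, θ = funMap (MulAut.conj m) (funMap (MulAut.conj n) ψ)} =
      {θ : Γ → ℂ | ∃ m ∈ N, θ = funMap (MulAut.conj m) ψ} := by
  ext θ
  constructor
  · rintro ⟨m, hm, rfl⟩
    exact ⟨m * n, N.mul_mem hm hn, FCN_mul m n ψ⟩
  · rintro ⟨m, hm, rfl⟩
    refine ⟨m * n⁻¹, N.mul_mem hm (N.inv_mem hn), ?_⟩
    rw [FCN_mul]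
    congr 2
    group

theorem FCN (hIF : IF_stmt) (hFCL : FCL_stmt) (hCFA : CFA_stmt) (hCCJ : CCJ_stmt) : FCN_stmt := by
  classical
  intro Γ _ _ K N hKN hNK B hB hst hcy
  have hBfin : B.Finite := ((hIF Γ K).1).subset hB
  set R : (Γ → ℂ) → (Γ → ℂ) → Prop := fun φ ψ => ∃ e : ℕ, 0 < e ∧ OverE K N φ ψ e with hR
  set Φ : Set (Γ → ℂ) := {φ | φ ∈ IrrOn N ∧ ∃ ψ ∈ B, ∃ e : ℕ, 0 < e ∧ OverE K N φ ψ e} with hΦ
  have hΦfin : Φ.Finite := ((hIF Γ N).1).subset (fun φ h => h.1)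
  -- for a given `ψ`
  have hpsi : ∀ ψ ∈ B, ∑ φ ∈ hΦfin.toFinset, (if R φ ψ then Nat.card (stF N ψ) else 0) =
      Nat.card K * (K.relIndex (stF N ψ)) ^ 2 := by
    intro ψ hψ
    obtain ⟨h1, -⟩ := hFCL Γ K N hKN hNK ψ (hB hψ) (hcy ψ hψ)
    have hKS : K ≤ stF N ψ := by
      intro k hk
      refine ⟨hKN hk, ?_⟩
      funext g
      have h2 := ((hIF Γ K).2 ψ (hB hψ)).2.1 k⁻¹ (K.inv_mem hk) g
      simp only [funMap, MulAut.conj_inv_apply]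
      simpa using h2
    have h3 : Nat.card K * K.relIndex (stF N ψ) = Nat.card (stF N ψ) := by
      have h := Subgroup.relIndex_mul_relIndex (⊥ : Subgroup Γ) K (stF N ψ) bot_le hKS
      rwa [Subgroup.relIndex_bot_left, Subgroup.relIndex_bot_left] at h
    have hset : {φ : Γ → ℂ | φ ∈ IrrOn N ∧ ∃ e : ℕ, 0 < e ∧ OverE K N φ ψ e} =
        ((hΦfin.toFinset.filter fun φ => R φ ψ : Finset (Γ → ℂ)) : Set (Γ → ℂ)) := by
      ext φ
      simp only [Set.mem_ofPred_eq, Finset.coe_filter, Set.Finite.mem_toFinset]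
      constructor
      · rintro ⟨h4, h5⟩
        exact ⟨⟨h4, ψ, hψ, h5⟩, h5⟩
      · rintro ⟨h4, h5⟩
        exact ⟨h4.1, h5⟩
    rw [hset, Set.ncard_coe_finset] at h1
    have hKpos : 0 < Nat.card K := Nat.card_pos
    have h6 : (hΦfin.toFinset.filter fun φ => R φ ψ).card = K.relIndex (stF N ψ) := by
      apply Nat.eq_of_mul_eq_mul_left hKpos
      rw [h3, ← h1, mul_comm]
    rw [← Finset.sum_filter, Finset.sum_const, h6, ← h3, smul_eq_mul]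
    ring
  -- for a given `φ`
  have hphi : ∀ φ ∈ Φ, ∑ ψ ∈ hBfin.toFinset, (if R φ ψ then Nat.card (stF N ψ) else 0) =
      Nat.card N := by
    rintro φ ⟨hφ, ψ₀, hψ₀, e₀, he₀, hov⟩
    have hN := (hCCJ Γ K N hNK ψ₀ (hB hψ₀)).2.2.1
    have hfil : ∀ ψ, (ψ ∈ hBfin.toFinset ∧ R φ ψ) ↔ ∃ n ∈ N, ψ = funMap (MulAut.conj n) ψ₀ := by
      intro ψ
      rw [Set.Finite.mem_toFinset]
      constructor
      · rintro ⟨h1, e, he, h2⟩
        exact ((hCFA Γ K N hKN hNK).2 φ ψ₀ (hB hψ₀) ψ (hB h1) e₀ e he₀ he hov h2).2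
      · rintro ⟨n, hn, rfl⟩
        refine ⟨hst n hn ψ₀ hψ₀, e₀, he₀, ?_⟩
        intro x hx
        rw [hov x hx, FCN_orb N ψ₀ n hn]
    have hcard : ∀ ψ, (∃ n ∈ N, ψ = funMap (MulAut.conj n) ψ₀) →
        Nat.card (stF N ψ) = Nat.card (stF N ψ₀) := by
      rintro ψ ⟨n, hn, rfl⟩
      have h1 := (hCCJ Γ K N hNK (funMap (MulAut.conj n) ψ₀) (hB (hst n hn ψ₀ hψ₀))).2.2.1
      have h2 : Nat.card {θ : Γ → ℂ // ∃ m ∈ N, θ = funMap (MulAut.conj m) (funMap (MulAut.conj n) ψ₀)} =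
          Nat.card {θ : Γ → ℂ // ∃ m ∈ N, θ = funMap (MulAut.conj m) ψ₀} :=
        congrArg (fun S : Set (Γ → ℂ) => Nat.card S) (FCN_orb N ψ₀ n hn)
      rw [h2] at h1
      have h3 : 0 < Nat.card {θ : Γ → ℂ // ∃ m ∈ N, θ = funMap (MulAut.conj m) ψ₀} := by
        rcases Nat.eq_zero_or_pos (Nat.card {θ : Γ → ℂ // ∃ m ∈ N, θ = funMap (MulAut.conj m) ψ₀}) with h | h
        · rw [h, zero_mul] at hN
          have : 0 < Nat.card N := Nat.card_pos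
          omega
        · exact h
      exact Nat.eq_of_mul_eq_mul_left h3 (h1.trans hN.symm)
    have hset : {θ : Γ → ℂ | ∃ n ∈ N, θ = funMap (MulAut.conj n) ψ₀} =
        ((hBfin.toFinset.filter fun ψ => R φ ψ : Finset (Γ → ℂ)) : Set (Γ → ℂ)) := by
      ext ψ
      rw [Finset.mem_coe, Finset.mem_filter, hfil ψ]
      exact Iff.rfl
    have hc : Nat.card {θ : Γ → ℂ // ∃ n ∈ N, θ = funMap (MulAut.conj n) ψ₀} =
        (hBfin.toFinset.filter fun ψ => R φ ψ).card := by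
      have h1 : Nat.card {θ : Γ → ℂ // ∃ n ∈ N, θ = funMap (MulAut.conj n) ψ₀} =
          Set.ncard {θ : Γ → ℂ | ∃ n ∈ N, θ = funMap (MulAut.conj n) ψ₀} := rfl
      rw [h1, hset, Set.ncard_coe_finset]
    rw [hc] at hN
    rw [← Finset.sum_filter, ← hN]
    rw [Finset.sum_congr rfl (g := fun _ => Nat.card (stF N ψ₀)), Finset.sum_const, smul_eq_mul]
    intro ψ hψ
    rw [Finset.mem_filter, hfil ψ] at hψ
    exact hcard ψ hψ
  -- double counting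
  have hcomm := Finset.sum_comm (s := hΦfin.toFinset) (t := hBfin.toFinset)
    (f := fun φ ψ => if R φ ψ then Nat.card (stF N ψ) else 0)
  have hL : ∑ φ ∈ hΦfin.toFinset, ∑ ψ ∈ hBfin.toFinset, (if R φ ψ then Nat.card (stF N ψ) else 0) =
      Nat.card N * Φ.ncard := by
    rw [Finset.sum_congr rfl (g := fun _ => Nat.card N), Finset.sum_const, smul_eq_mul,
      ← Set.ncard_eq_toFinset_card _ hΦfin, mul_comm]
    intro φ hφ
    exact hphi φ (hΦfin.mem_toFinset.1 hφ)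
  have hRR : ∑ ψ ∈ hBfin.toFinset, ∑ φ ∈ hΦfin.toFinset, (if R φ ψ then Nat.card (stF N ψ) else 0) =
      Nat.card K * ∑ᶠ ψ ∈ B, (K.relIndex (stF N ψ)) ^ 2 := by
    rw [finsum_mem_eq_finite_toFinset_sum _ hBfin, Finset.mul_sum]
    refine Finset.sum_congr rfl fun ψ hψ => ?_
    exact hpsi ψ (hBfin.mem_toFinset.1 hψ)
  rw [← hL, ← hRR]
  exact hcomm

end Pool.Agent.FI
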