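import Pool.Agent.helper22.FI.SpecA

/-! Row BLE of project fi: block idempotents relative to a subgroup. -/

set_option autoImplicit false

namespace Pool.Agent.FI

open Pool.Agent.helper58.DC Pool.Agent.DI Pool.Agent.GR Pool.Agent.OB

/-- The `p`-part and the `p`-regular part of an element, as powers. -/
theorem BLE_split {G : Type} [Group G] [Finite G] {p : ℕ} (hp : p.Prime) (x : G) (hx : ¬ PReg p x) :
    ∃ e f : ℕ, x ^ e * x ^ f = x ∧ PEl p (x ^ e) ∧ PReg p (x ^ f) ∧ x ^ e ≠ 1 := by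
  have hn : orderOf x ≠ 0 := (orderOf_pos x).ne'
  have hab : p ^ (orderOf x).factorization p * (orderOf x / p ^ (orderOf x).factorization p) = orderOf x :=
    Nat.ordProj_mul_ordCompl_eq_self (orderOf x) p
  have hpb : p.Coprime (orderOf x / p ^ (orderOf x).factorization p) := Nat.coprime_ordCompl hp hn
  generalize (orderOf x).factorization p = k at hab hpb
  generalize orderOf x / p ^ k = b at hab hpb
  have hco : (p ^ k).Coprime b := hpb.pow_left _
  obtain ⟨e, he1, he2⟩ := Nat.chineseRemainder hco 1 0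
  obtain ⟨f, hf1, hf2⟩ := Nat.chineseRemainder hco 0 1
  have hef : e + f ≡ 1 [MOD (orderOf x)] := by
    rw [← hab]
    refine (Nat.modEq_and_modEq_iff_modEq_mul hco).mp ⟨?_, ?_⟩
    · simpa using he1.add hf1
    · simpa using he2.add hf2
  have hbe : b ∣ e := (Nat.modEq_zero_iff_dvd).mp he2
  have haf : p ^ k ∣ f := (Nat.modEq_zero_iff_dvd).mp hf1
  have h1 : x ^ e * x ^ f = x := by
    rw [← pow_add]
    have h2 := (pow_eq_pow_iff_modEq (x := x) (n := e + f) (m := 1)).2 hef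
    rw [h2, pow_one]
  have h3 : PReg p (x ^ f) := by
    intro h4
    have h5 : orderOf (x ^ f) ∣ b := by
      rw [orderOf_dvd_iff_pow_eq_one, ← pow_mul, ← orderOf_dvd_iff_pow_eq_one, ← hab]
      exact Nat.mul_dvd_mul_right haf b
    exact ((Nat.Prime.coprime_iff_not_dvd hp).1 hpb) (h4.trans h5)
  refine ⟨e, f, h1, ⟨k, ?_⟩, h3, ?_⟩
  · rw [← pow_mul, ← orderOf_dvd_iff_pow_eq_one, ← hab, mul_comm]
    exact Nat.mul_dvd_mul_right hbe _
  · intro h4
    rw [h4, one_mul] at h1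
    rw [h1] at h3
    exact hx h3

theorem BLE (h1 : TRN_stmt) (h2 : IDM_stmt) (h3 : EIN_stmt) (h4 : BR0_stmt) : BLE_stmt := by
  intro p M hs G _ _ L K hKL θ
  have hBC : BC M K (Bq M L K θ) := by
    refine ⟨fun η h => h.1, fun ψ hψ ψ' hψ' hsb => ⟨hψ', ?_⟩⟩
    exact ((h1 G M K L hKL ψ ψ' θ hψ.1.1 hψ'.1 hsb).2).2 hψ.2
  obtain ⟨hCF, hcc, hid, -⟩ := h2 G K (Bq M L K θ) hBC.sub
  refine ⟨hBC, hCF, h3 p M hs G K _ hBC, hid, ?_, ?_, ?_, rfl⟩
  · intro φ hφ
    rw [hcc φ hφ.1, if_pos hφ]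
  · intro φ hφ hφ'
    rw [hcc φ hφ, if_neg hφ']
  · intro x hx
    by_cases hxK : x ∈ K
    · obtain ⟨e, f, hef, hpe, hrf, hne⟩ := BLE_split hs.pr x hx
      have h5 := h4 p M hs G K (Bq M L K θ) hBC 1 K.one_mem 1 K.one_mem (x ^ e) (K.pow_mem hxK e)
        (x ^ f) (K.pow_mem hxK f) ⟨0, by simp⟩ hpe (by
          unfold PReg
          rw [orderOf_one]
          exact fun h => hs.pr.one_lt.ne' (Nat.dvd_one.1 h)) hrf (Commute.refl 1)
        ((Commute.refl x).pow_pow e f) (by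
          intro h hh h6
          apply hne
          rw [← h6]
          group)
      rw [hef] at h5
      have h6 : eS K (Bq M L K θ) x = Sf (Bq M L K θ) (1 * 1) x / Nat.card K := by
        unfold eS Sf
        rw [one_mul]
      rw [h6, h5, zero_div]
    · exact hCF.2 x hxK

end Pool.Agent.FI
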